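import Pool.Agent.helper80.SV.Spec

/-! # sv: HON -/

set_option autoImplicit false

namespace Pool.Agent.SV

open MvPolynomial Module

variable {ι κ : Type} [Fintype ι] [DecidableEq ι] [Fintype κ] [DecidableEq κ]

/-- the substitution `X i ↦ 0` for `i ∉ A` -/
noncomputable def HON_phi (A : Finset ι) (i : ι) : MvPolynomial ι ℂ := if i ∈ A then X i else 0

theorem HON_eval (A : Finset ι) (y : ι → ℂ) (p : MvPolynomial ι ℂ) :
    eval y (bind₁ (HON_phi A) p) = eval (cut A y) p := by
  have h1 : (eval y) (bind₁ (HON_phi A) p) = eval (fun i => eval y (HON_phi A i)) p := by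
    induction p using MvPolynomial.induction_on with
    | C a => simp
    | add p q hp hq => rw [map_add, map_add, hp, hq, map_add]
    | mul_X p i hp => rw [map_mul, map_mul, hp, bind₁_X_right, map_mul, eval_X]
  rw [h1]
  congr 2
  funext i
  unfold HON_phi cut
  split_ifs <;> simp

theorem HON_pderiv (A : Finset ι) (j : ι) (hj : j ∈ A) (p : MvPolynomial ι ℂ) :
    pderiv j (bind₁ (HON_phi A) p) = bind₁ (HON_phi A) (pderiv j p) := by
  induction p using MvPolynomial.induction_on with
  | C a => simp
  | add p q hp hq => rw [map_add, map_add, hp, hq, map_add, map_add]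
  | mul_X p i hp =>
    have h1 : pderiv j (bind₁ (HON_phi A) (X i)) = bind₁ (HON_phi A) (pderiv j (X i)) := by
      rw [bind₁_X_right]
      unfold HON_phi
      by_cases hij : i = j
      · subst hij
        rw [if_pos hj, pderiv_X_self, map_one]
      · rw [pderiv_X_of_ne hij, map_zero]
        split_ifs
        · rw [pderiv_X_of_ne hij]
        · rw [map_zero]
    rw [map_mul, Derivation.leibniz, Derivation.leibniz, hp, h1, map_add, smul_eq_mul,
      smul_eq_mul, smul_eq_mul, smul_eq_mul, map_mul, map_mul]

theorem HON_sub (c : ι → κ) (A : Finset ι) (L w y : ι → ℂ) (f : MvPolynomial ι ℂ) :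
    eval (cut A y) (bind₁ (hsub c A L w 1) f) =
      eval (fun i => Lval c A L (cut A y) (c i) * cut A w i) f := by
  have h1 : (eval (cut A y)) (bind₁ (hsub c A L w 1) f) =
      eval (fun i => eval (cut A y) (hsub c A L w 1 i)) f := by
    induction f using MvPolynomial.induction_on with
    | C a => simp
    | add p q hp hq => rw [map_add, map_add, hp, hq, map_add]
    | mul_X p i hp => rw [map_mul, map_mul, hp, bind₁_X_right, map_mul, eval_X]
  rw [h1]
  congr 2
  funext i
  unfold hsub Lval
  by_cases hi : i ∈ A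
  · rw [if_pos hi]
    have h2 : cut A w i = w i := by unfold cut; rw [if_pos hi]
    rw [h2]
    simp only [sub_self, C_0, zero_mul, zero_add, one_mul, map_mul, eval_C, map_sum, eval_X]
    ring
  · rw [if_neg hi]
    have h2 : cut A w i = 0 := by unfold cut; rw [if_neg hi]
    rw [h2, mul_zero, eval_X]
    unfold cut
    rw [if_neg hi]

theorem HON_Lprod (c : ι → κ) (A : Finset ι) (d : κ → ℕ) (L y : ι → ℂ) :
    eval y (Lprod c A d L) = ∏ k, Lval c A L y k ^ d k := by
  unfold Lprod Lval
  rw [map_prod]
  refine Finset.prod_congr rfl fun k _ => ?_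
  rw [map_pow, map_sum]
  congr 1
  refine Finset.sum_congr rfl fun j _ => ?_
  rw [map_mul, eval_C, eval_X]

theorem HON (hHOM : HOM_stmt) : HON_stmt := by
  intro ι κ _ _ _ _ c A B d hAB L w f hf x
  have key : bind₁ (HON_phi A) (bind₁ (hsub c A L w 1) f) =
      bind₁ (HON_phi A) (C (eval (cut A w) f) * Lprod c A d L) := by
    apply MvPolynomial.funext
    intro y
    rw [HON_eval, HON_eval, HON_sub,
      (hHOM c B d f hf).1 (fun k => Lval c A L (cut A y) k) (cut A w), map_mul, eval_C, HON_Lprod]
    ring
  funext j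
  rw [Pi.smul_apply, gradL_apply, gradL_apply, smul_eq_mul]
  by_cases hj : j ∈ A
  · rw [if_pos hj, if_pos hj]
    have h1 := congrArg (fun p => eval x (pderiv j p)) key
    simp only [HON_pderiv A j hj, HON_eval] at h1
    rw [h1, pderiv_C_mul, map_mul, eval_C]
  · rw [if_neg hj, if_neg hj, mul_zero]

end Pool.Agent.SV
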